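import Pool.Agent.H586.AF.D

/-! # Task AG-SP: scalar identities for the quadratic forms (by helper375 for helper586) -/

set_option autoImplicit false
set_option linter.unusedVariables false
set_option linter.unusedSimpArgs false

open MeasureTheory Matrix Finset Filter Topology

namespace Pool.Agent.H375.AG

open Pool.Agent.H586.AF

noncomputable section

/-! ### derivatives of the Hermitian form (copied from the file AF-E3 of helper763) -/

theorem hd {n : Type} [Fintype n] (b : n → ℂ) (M : ℝ → n → n → ℂ) (M' : n → n → ℂ) (θ : ℝ)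
    (h : ∀ i j, HasDerivAt (fun θ => M θ i j) (M' i j) θ) :
    HasDerivAt (fun θ => (1 / 2 : ℝ) * (∑ i, ∑ j, star (b i) * M θ i j * b j).re)
      ((1 / 2) * (∑ i, ∑ j, star (b i) * M' i j * b j).re) θ := by
  have h1 : HasDerivAt (fun θ => ∑ i, ∑ j, star (b i) * M θ i j * b j)
      (∑ i, ∑ j, star (b i) * M' i j * b j) θ :=
    HasDerivAt.fun_sum fun i _ => HasDerivAt.fun_sum fun j _ =>
      ((h i j).const_mul (star (b i))).mul_const (b j)
  have h2 := (Complex.reCLM.hasFDerivAt).comp_hasDerivAt θ h1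
  exact h2.const_mul (1 / 2 : ℝ)

theorem dd {f : ℝ → ℂ} (hf : ContDiff ℝ 2 f) :
    Differentiable ℝ f ∧ Differentiable ℝ (deriv f) := by
  have h : ContDiff ℝ (1 + 1) f := by
    have e : (1 + 1 : WithTop ℕ∞) = 2 := by norm_num
    rw [e]
    exact hf
  obtain ⟨h1, -, h2⟩ := contDiff_succ_iff_deriv.1 h
  exact ⟨h1, h2.differentiable (by norm_num)⟩

section

variable {n : Type} [Fintype n] (b : n → ℂ) (M : ℝ → Matrix n n ℂ)
  (hM : ∀ i j, ContDiff ℝ 2 fun θ => M θ i j)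

include hM

theorem deriv1 : (deriv fun θ => (1 / 2 : ℝ) * hf b (M θ) b) =
    fun θ => (1 / 2 : ℝ) * (∑ i, ∑ j, star (b i) * deriv (fun θ => M θ i j) θ * b j).re := by
  funext θ
  exact (hd b (fun θ => M θ) (fun i j => deriv (fun θ => M θ i j) θ) θ
    fun i j => ((dd (hM i j)).1 θ).hasDerivAt).deriv

theorem deriv2 : deriv (deriv fun θ => (1 / 2 : ℝ) * hf b (M θ) b) 0 =
    (1 / 2 : ℝ) * (∑ i, ∑ j, star (b i) * deriv (deriv fun θ => M θ i j) 0 * b j).re := by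
  rw [deriv1 b M hM]
  exact (hd b (fun θ i j => deriv (fun θ => M θ i j) θ)
    (fun i j => deriv (deriv fun θ => M θ i j) 0) 0
    fun i j => ((dd (hM i j)).2 0).hasDerivAt).deriv

end

theorem term1 (f g f' g' m : ℝ) : (star ((f : ℂ) + (g : ℂ) * Complex.I) * (Complex.I * (m : ℂ)) *
    ((f' : ℂ) + (g' : ℂ) * Complex.I)).re = -(m * f * g') + m * g * f' := by
  simp [Complex.mul_re, Complex.mul_im]
  ring

theorem term2 (f f' m : ℝ) : (star (f : ℂ) * (m : ℂ) * (f' : ℂ)).re = m * f * f' := by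
  rw [Complex.star_def, Complex.conj_ofReal, ← Complex.ofReal_mul, ← Complex.ofReal_mul,
    Complex.ofReal_re]
  ring

/-! ### sums over the plaquettes -/

theorem hd12 (L : ℕ) (F : ℝ → ℕ → ℕ → ℕ → ℕ → ℝ) (F' : ℕ → ℕ → ℕ → ℕ → ℝ) (θ : ℝ)
    (h : ∀ x y z w, HasDerivAt (fun θ => F θ x y z w) (F' x y z w) θ) :
    HasDerivAt (fun θ => s12 L (F θ)) (s12 L F') θ :=
  HasDerivAt.fun_sum fun x _ => HasDerivAt.fun_sum fun y _ => HasDerivAt.fun_sum fun z _ =>
    HasDerivAt.fun_sum fun w _ => h x y z w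

theorem hd23 (L : ℕ) (F : ℝ → ℕ → ℕ → ℕ → ℕ → ℝ) (F' : ℕ → ℕ → ℕ → ℕ → ℝ) (θ : ℝ)
    (h : ∀ x y z w, HasDerivAt (fun θ => F θ x y z w) (F' x y z w) θ) :
    HasDerivAt (fun θ => s23 L (F θ)) (s23 L F') θ :=
  HasDerivAt.fun_sum fun x _ => HasDerivAt.fun_sum fun y _ => HasDerivAt.fun_sum fun z _ =>
    HasDerivAt.fun_sum fun w _ => h x y z w

theorem s12_lin (L : ℕ) (c : ℝ) (F G : ℕ → ℕ → ℕ → ℕ → ℝ) (h : ∀ x y z w, F x y z w = c * G x y z w) :
    s12 L F = c * s12 L G := by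
  unfold s12
  simp only [h, Finset.mul_sum]

theorem s23_lin (L : ℕ) (c : ℝ) (F G : ℕ → ℕ → ℕ → ℕ → ℝ) (h : ∀ x y z w, F x y z w = c * G x y z w) :
    s23 L F = c * s23 L G := by
  unfold s23
  simp only [h, Finset.mul_sum]

theorem s12_pol (L : ℕ) (F G H K : ℕ → ℕ → ℕ → ℕ → ℝ)
    (h : ∀ x y z w, F x y z w = G x y z w - H x y z w - K x y z w) :
    s12 L F = s12 L G - s12 L H - s12 L K := by
  unfold s12
  simp only [h, Finset.sum_sub_distrib]

theorem s23_pol (L : ℕ) (F G H K : ℕ → ℕ → ℕ → ℕ → ℝ)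
    (h : ∀ x y z w, F x y z w = G x y z w - H x y z w - K x y z w) :
    s23 L F = s23 L G - s23 L H - s23 L K := by
  unfold s23
  simp only [h, Finset.sum_sub_distrib]

/-! ### extended fields -/

theorem ex1_add (L : ℕ) (f g : I1 L → ℝ) (x y z h : ℕ) :
    ex1 L (fun i => f i + g i) 0 x y z h = ex1 L f 0 x y z h + ex1 L g 0 x y z h := by
  unfold ex1
  split_ifs <;> simp

theorem ex2_add (L : ℕ) (f g : I2 L → ℝ) (x y z h : ℕ) :
    ex2 L (fun i => f i + g i) 0 x y z h = ex2 L f 0 x y z h + ex2 L g 0 x y z h := by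
  unfold ex2
  split_ifs <;> simp

theorem ex3_add (L : ℕ) (f g : I3 L → ℝ) (x y z h : ℕ) :
    ex3 L (fun i => f i + g i) 0 x y z h = ex3 L f 0 x y z h + ex3 L g 0 x y z h := by
  unfold ex3
  split_ifs <;> simp

theorem ex1_c (L : ℕ) (f g : I1 L → ℝ) (x y z h : ℕ) :
    ex1 L (fun i => (f i : ℂ) + (g i : ℂ) * Complex.I) 0 x y z h =
      ((ex1 L f 0 x y z h : ℝ) : ℂ) + ((ex1 L g 0 x y z h : ℝ) : ℂ) * Complex.I := by
  unfold ex1
  split_ifs <;> simp

theorem ex2_c (L : ℕ) (f g : I2 L → ℝ) (x y z h : ℕ) :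
    ex2 L (fun i => (f i : ℂ) + (g i : ℂ) * Complex.I) 0 x y z h =
      ((ex2 L f 0 x y z h : ℝ) : ℂ) + ((ex2 L g 0 x y z h : ℝ) : ℂ) * Complex.I := by
  unfold ex2
  split_ifs <;> simp

theorem ex3_c (L : ℕ) (f g : I3 L → ℝ) (x y z h : ℕ) :
    ex3 L (fun i => (f i : ℂ) + (g i : ℂ) * Complex.I) 0 x y z h =
      ((ex3 L f 0 x y z h : ℝ) : ℂ) + ((ex3 L g 0 x y z h : ℝ) : ℂ) * Complex.I := by
  unfold ex3
  split_ifs <;> simp

theorem ex1_r (L : ℕ) (f : I1 L → ℝ) (x y z h : ℕ) :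
    ex1 L (fun i => (f i : ℂ)) 0 x y z h = ((ex1 L f 0 x y z h : ℝ) : ℂ) := by
  unfold ex1
  split_ifs <;> simp

theorem ex2_r (L : ℕ) (f : I2 L → ℝ) (x y z h : ℕ) :
    ex2 L (fun i => (f i : ℂ)) 0 x y z h = ((ex2 L f 0 x y z h : ℝ) : ℂ) := by
  unfold ex2
  split_ifs <;> simp

theorem ex3_r (L : ℕ) (f : I3 L → ℝ) (x y z h : ℕ) :
    ex3 L (fun i => (f i : ℂ)) 0 x y z h = ((ex3 L f 0 x y z h : ℝ) : ℂ) := by
  unfold ex3
  split_ifs <;> simp

/-! ### the plaquettes, first derivative at `0` -/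

theorem hd_ee (p : ℝ) : HasDerivAt (fun θ : ℝ => ee θ p) (Complex.I * (p : ℂ)) 0 := by
  unfold ee
  have h1 : HasDerivAt (fun θ : ℝ => Complex.I * ((θ * p : ℝ) : ℂ)) (Complex.I * ((1 * p : ℝ) : ℂ)) 0 := by
    have h2 : HasDerivAt (fun θ : ℝ => θ * p) (1 * p) 0 := (hasDerivAt_id (0 : ℝ)).mul_const p
    exact (h2.ofReal_comp).const_mul Complex.I
  have h3 := h1.cexp
  simpa using h3

theorem hd_re {F : ℝ → ℂ} {F' : ℂ} {θ : ℝ} (h : HasDerivAt F F' θ) :
    HasDerivAt (fun θ => (F θ).re) F'.re θ :=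
  (Complex.reCLM.hasFDerivAt).comp_hasDerivAt θ h

theorem hd_im {F : ℝ → ℂ} {F' : ℂ} {θ : ℝ} (h : HasDerivAt F F' θ) :
    HasDerivAt (fun θ => (F θ).im) F'.im θ :=
  (Complex.imCLM.hasFDerivAt).comp_hasDerivAt θ h

/-- `p.1 q.2 - p.2 q.1` -/
def w (p q : ℝ × ℝ) : ℝ := p.1 * q.2 - p.2 * q.1

/-- a pair as a complex number -/
def cpl (p : ℝ × ℝ) : ℂ := (p.1 : ℂ) + (p.2 : ℂ) * Complex.I

theorem d12 (x : ℝ) (a b c d : ℝ × ℝ) :
    HasDerivAt (fun θ => q12 θ x (cpl a) (cpl b) (cpl c) (cpl d))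
      (-(1 / 2) * (-(2 * x + 1) * w a c - (x + 1) * w a d - (x + 1) * w c d + x * w a b - x * w b c)) 0 := by
  unfold q12
  have h1 : HasDerivAt (fun θ : ℝ => (1 / 2) * Real.cos (θ / 2) *
      (‖cpl a‖ ^ 2 + ‖cpl b‖ ^ 2 + ‖cpl c‖ ^ 2 + ‖cpl d‖ ^ 2)) 0 0 := by
    have h2 : HasDerivAt (fun θ : ℝ => Real.cos (θ / 2)) (-Real.sin (0 / 2) * (1 / 2)) 0 :=
      ((hasDerivAt_id (0 : ℝ)).div_const 2).cos
    have h3 := (h2.const_mul (1 / 2)).mul_const (‖cpl a‖ ^ 2 + ‖cpl b‖ ^ 2 + ‖cpl c‖ ^ 2 + ‖cpl d‖ ^ 2)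
    simpa using h3
  have h4 := (((((((hd_ee ((x + 1) / 2)).mul_const (cpl c)).mul_const (star (cpl d))).neg.sub
    (((hd_ee (-(x / 2))).mul_const (cpl a)).mul_const (star (cpl b)))).add_const
    (cpl b * star (cpl d))).add
    (((hd_ee (-(x / 2))).mul_const (cpl b)).mul_const (star (cpl c)))).add
    (((hd_ee (-((x + 1) / 2))).mul_const (cpl a)).mul_const (star (cpl d)))).add
    (((hd_ee (-((2 * x + 1) / 2))).mul_const (cpl a)).mul_const (star (cpl c)))
  have h5 := h1.sub (hd_re h4)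
  refine (h5.congr_deriv ?_)
  unfold w cpl
  simp [Complex.mul_re, Complex.mul_im]
  ring

theorem d23 (x : ℝ) (a b c d : ℝ × ℝ) :
    HasDerivAt (fun θ => q23 θ x (cpl a) (cpl b) (cpl c) (cpl d))
      (-(1 / 2) * (-x * (w b a - w b c - 2 * w b d + w d a - w d c))) 0 := by
  unfold q23
  have h4 := (((hd_ee (x / 2)).mul_const (cpl b)).const_add (cpl a - cpl c)).sub
    ((hd_ee (-(x / 2))).mul_const (cpl d))
  have e : (fun θ : ℝ => (1 / 2 : ℝ) * ‖cpl a - cpl c + ee θ (x / 2) * cpl b - ee θ (-(x / 2)) * cpl d‖ ^ 2) =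
      fun θ : ℝ => (1 / 2 : ℝ) * ((cpl a - cpl c + ee θ (x / 2) * cpl b - ee θ (-(x / 2)) * cpl d).re ^ 2 +
        (cpl a - cpl c + ee θ (x / 2) * cpl b - ee θ (-(x / 2)) * cpl d).im ^ 2) := by
    funext θ
    rw [Complex.sq_norm, Complex.normSq_apply]
    ring
  rw [e]
  have h5 := (((hd_re h4).pow 2).add ((hd_im h4).pow 2)).const_mul (1 / 2 : ℝ)
  refine (h5.congr_deriv ?_)
  have e0 : ∀ p : ℝ, ee 0 p = 1 := by
    intro p
    unfold ee
    simp
  unfold w cpl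
  simp [Complex.mul_re, Complex.mul_im, e0]
  ring

/-! ### the plaquettes, real fields, second derivative at `0` -/

theorem re_ee (p a b θ : ℝ) : (ee θ p * (a : ℂ) * star (b : ℂ)).re = Real.cos (θ * p) * (a * b) := by
  unfold ee
  have h : Complex.exp (Complex.I * ((θ * p : ℝ) : ℂ)) =
      (Real.cos (θ * p) : ℂ) + (Real.sin (θ * p) : ℂ) * Complex.I := by
    rw [mul_comm, Complex.exp_mul_I, Complex.ofReal_cos, Complex.ofReal_sin]
  rw [h, Complex.star_def, Complex.conj_ofReal]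
  simp only [Complex.add_re, Complex.mul_re, Complex.add_im,
    Complex.mul_im, Complex.ofReal_re, Complex.ofReal_im, Complex.I_re, Complex.I_im]
  ring

theorem q12_real (θ x a b c d : ℝ) : q12 θ x a b c d =
    (1 / 2) * (a ^ 2 + b ^ 2 + c ^ 2 + d ^ 2) * Real.cos (θ * (1 / 2)) +
      c * d * Real.cos (θ * ((x + 1) / 2)) + (a * b - b * c) * Real.cos (θ * (x / 2)) - b * d -
      a * d * Real.cos (θ * ((x + 1) / 2)) - a * c * Real.cos (θ * ((2 * x + 1) / 2)) := by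
  unfold q12
  have e1 : ∀ r : ℝ, ‖(r : ℂ)‖ ^ 2 = r ^ 2 := by
    intro r
    rw [Complex.norm_real, Real.norm_eq_abs, sq_abs]
  rw [e1, e1, e1, e1]
  have e2 : ∀ p q : ℝ, ((p : ℂ) * star (q : ℂ)).re = p * q := by
    intro p q
    simp [Complex.mul_re, Complex.mul_im]
  rw [Complex.add_re, Complex.add_re, Complex.add_re, Complex.add_re, Complex.sub_re, Complex.neg_re,
    re_ee, re_ee, re_ee, re_ee, re_ee, e2]
  have e3 : ∀ p : ℝ, Real.cos (θ * -p) = Real.cos (θ * p) := by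
    intro p
    rw [mul_neg, Real.cos_neg]
  rw [e3, e3, e3, show θ / 2 = θ * (1 / 2) by ring]
  ring

theorem q23_real (θ x a b c d : ℝ) : q23 θ x a b c d =
    (1 / 2) * ((a - c + Real.cos (θ * (x / 2)) * (b - d)) ^ 2 +
      (Real.sin (θ * (x / 2)) * (b + d)) ^ 2) := by
  unfold q23
  have h : ∀ p : ℝ, ee θ p = (Real.cos (θ * p) : ℂ) + (Real.sin (θ * p) : ℂ) * Complex.I := by
    intro p
    unfold ee
    rw [mul_comm, Complex.exp_mul_I, Complex.ofReal_cos, Complex.ofReal_sin]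
  rw [Complex.sq_norm, Complex.normSq_apply, h, h, mul_neg, Real.cos_neg, Real.sin_neg]
  simp only [Complex.add_re, Complex.sub_re, Complex.mul_re, Complex.add_im, Complex.sub_im,
    Complex.mul_im, Complex.ofReal_re, Complex.ofReal_im, Complex.I_re, Complex.I_im]
  ring

theorem hcos (p θ : ℝ) : HasDerivAt (fun θ : ℝ => Real.cos (θ * p)) (-Real.sin (θ * p) * p) θ := by
  have h : HasDerivAt (fun θ : ℝ => θ * p) (1 * p) θ := (hasDerivAt_id θ).mul_const p
  rw [one_mul] at h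
  exact h.cos

theorem hsin (p θ : ℝ) : HasDerivAt (fun θ : ℝ => Real.sin (θ * p)) (Real.cos (θ * p) * p) θ := by
  have h : HasDerivAt (fun θ : ℝ => θ * p) (1 * p) θ := (hasDerivAt_id θ).mul_const p
  rw [one_mul] at h
  exact h.sin

/-- the first derivative in the plane 12 -/
def r12 (x a b c d θ : ℝ) : ℝ :=
  (1 / 2) * (a ^ 2 + b ^ 2 + c ^ 2 + d ^ 2) * (-Real.sin (θ * (1 / 2)) * (1 / 2)) +
      c * d * (-Real.sin (θ * ((x + 1) / 2)) * ((x + 1) / 2)) +
      (a * b - b * c) * (-Real.sin (θ * (x / 2)) * (x / 2)) -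
      a * d * (-Real.sin (θ * ((x + 1) / 2)) * ((x + 1) / 2)) -
      a * c * (-Real.sin (θ * ((2 * x + 1) / 2)) * ((2 * x + 1) / 2))

theorem e12 (x a b c d θ : ℝ) : HasDerivAt (fun θ => q12 θ x a b c d) (r12 x a b c d θ) θ := by
  have e : (fun θ => q12 θ x a b c d) = fun θ =>
      (1 / 2) * (a ^ 2 + b ^ 2 + c ^ 2 + d ^ 2) * Real.cos (θ * (1 / 2)) +
      c * d * Real.cos (θ * ((x + 1) / 2)) + (a * b - b * c) * Real.cos (θ * (x / 2)) - b * d -
      a * d * Real.cos (θ * ((x + 1) / 2)) - a * c * Real.cos (θ * ((2 * x + 1) / 2)) := by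
    funext θ
    exact q12_real θ x a b c d
  rw [e]
  exact ((((((hcos (1 / 2) θ).const_mul _).add ((hcos ((x + 1) / 2) θ).const_mul _)).add
    ((hcos (x / 2) θ).const_mul _)).sub_const _).sub ((hcos ((x + 1) / 2) θ).const_mul _)).sub
    ((hcos ((2 * x + 1) / 2) θ).const_mul _)

/-- the second derivative in the plane 12 -/
def t12 (x a b c d : ℝ) : ℝ :=
  -(1 / 8) * (a * a + b * b + c * c + d * d) - (x + 1) ^ 2 / 4 * (c * d) - x ^ 2 / 4 * (a * b) +
    x ^ 2 / 4 * (b * c) + (x + 1) ^ 2 / 4 * (a * d) + (2 * x + 1) ^ 2 / 4 * (a * c)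

theorem f12 (x a b c d : ℝ) : HasDerivAt (r12 x a b c d) (t12 x a b c d) 0 := by
  unfold r12
  have h := fun p : ℝ => ((hsin p 0).neg).mul_const p
  have h1 := (((((h (1 / 2)).const_mul ((1 / 2) * (a ^ 2 + b ^ 2 + c ^ 2 + d ^ 2))).add
    ((h ((x + 1) / 2)).const_mul (c * d))).add
    ((h (x / 2)).const_mul (a * b - b * c))).sub ((h ((x + 1) / 2)).const_mul (a * d))).sub
    ((h ((2 * x + 1) / 2)).const_mul (a * c))
  refine (h1.congr_deriv ?_)
  unfold t12
  simp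
  ring

/-- the first derivative in the plane 23 -/
def r23 (x a b c d θ : ℝ) : ℝ :=
  (a - c + Real.cos (θ * (x / 2)) * (b - d)) * (-Real.sin (θ * (x / 2)) * (x / 2) * (b - d)) +
      (Real.sin (θ * (x / 2)) * (b + d)) * (Real.cos (θ * (x / 2)) * (x / 2) * (b + d))

theorem e23 (x a b c d θ : ℝ) : HasDerivAt (fun θ => q23 θ x a b c d) (r23 x a b c d θ) θ := by
  have e : (fun θ => q23 θ x a b c d) = fun θ =>
      (1 / 2) * ((a - c + Real.cos (θ * (x / 2)) * (b - d)) ^ 2 +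
      (Real.sin (θ * (x / 2)) * (b + d)) ^ 2) := by
    funext θ
    exact q23_real θ x a b c d
  rw [e]
  have h := (((((hcos (x / 2) θ).mul_const (b - d)).const_add (a - c)).pow 2).add
    (((hsin (x / 2) θ).mul_const (b + d)).pow 2)).const_mul (1 / 2)
  refine (h.congr_deriv ?_)
  unfold r23
  simp
  ring

/-- the second derivative in the plane 23 -/
def t23 (x a b c d : ℝ) : ℝ :=
  x ^ 2 / 4 * ((b + d) * (b + d)) - x ^ 2 / 4 * ((b - d) * (a - c + (b - d)))

theorem f23 (x a b c d : ℝ) : HasDerivAt (r23 x a b c d) (t23 x a b c d) 0 := by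
  unfold r23
  have h1 := ((((hcos (x / 2) 0).mul_const (b - d)).const_add (a - c)).mul
    (((hsin (x / 2) 0).neg.mul_const (x / 2)).mul_const (b - d))).add
    (((hsin (x / 2) 0).mul_const (b + d)).mul
      (((hcos (x / 2) 0).mul_const (x / 2)).mul_const (b + d)))
  refine (h1.congr_deriv ?_)
  unfold t23
  simp
  ring

/-! ### assembly -/

section

variable {L : ℕ}

/-- the extended fields of the direction 1 -/
def x1 (L : ℕ) (f : IH L → ℝ) : ℕ → ℕ → ℕ → ℕ → ℝ := ex1 L (fun i => f (Sum.inl i)) 0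
/-- the extended fields of the direction 2 -/
def x2 (L : ℕ) (f : IH L → ℝ) : ℕ → ℕ → ℕ → ℕ → ℝ := ex2 L (fun i => f (Sum.inr (Sum.inl i))) 0
/-- the extended fields of the direction 3 -/
def x3 (L : ℕ) (f : IH L → ℝ) : ℕ → ℕ → ℕ → ℕ → ℝ := ex3 L (fun i => f (Sum.inr (Sum.inr i))) 0

/-- the first derivative of the form -/
theorem qf_d (L : ℕ) (f g : IH L → ℝ) :
    HasDerivAt (fun θ => qf L θ fun l => (f l : ℂ) + (g l : ℂ) * Complex.I)
      (s12 L (fun x y z h => -(1 / 2) * (-(2 * x + 1) * w (x1 L f x y z h, x1 L g x y z h)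
          (x1 L f x (y + 1) z h, x1 L g x (y + 1) z h) -
        (x + 1) * w (x1 L f x y z h, x1 L g x y z h) (x2 L f x y z h, x2 L g x y z h) -
        (x + 1) * w (x1 L f x (y + 1) z h, x1 L g x (y + 1) z h) (x2 L f x y z h, x2 L g x y z h) +
        x * w (x1 L f x y z h, x1 L g x y z h) (x2 L f (x + 1) y z h, x2 L g (x + 1) y z h) -
        x * w (x2 L f (x + 1) y z h, x2 L g (x + 1) y z h)
          (x1 L f x (y + 1) z h, x1 L g x (y + 1) z h))) +
      s23 L (fun x y z h => -(1 / 2) * (-x * (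
        w (x3 L f x (y + 1) z h, x3 L g x (y + 1) z h) (x2 L f x y z h, x2 L g x y z h) -
        w (x3 L f x (y + 1) z h, x3 L g x (y + 1) z h) (x2 L f x y (z + 1) h, x2 L g x y (z + 1) h) -
        2 * w (x3 L f x (y + 1) z h, x3 L g x (y + 1) z h) (x3 L f x y z h, x3 L g x y z h) +
        w (x3 L f x y z h, x3 L g x y z h) (x2 L f x y z h, x2 L g x y z h) -
        w (x3 L f x y z h, x3 L g x y z h) (x2 L f x y (z + 1) h, x2 L g x y (z + 1) h))))) 0 := by
  have h12 := hd12 L (fun θ x y z h => q12 θ x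
      (cpl (x1 L f x y z h, x1 L g x y z h)) (cpl (x2 L f (x + 1) y z h, x2 L g (x + 1) y z h))
      (cpl (x1 L f x (y + 1) z h, x1 L g x (y + 1) z h)) (cpl (x2 L f x y z h, x2 L g x y z h)))
    _ 0 (fun x y z h => d12 x _ _ _ _)
  have h23 := hd23 L (fun θ x y z h => q23 θ x
      (cpl (x2 L f x y z h, x2 L g x y z h)) (cpl (x3 L f x (y + 1) z h, x3 L g x (y + 1) z h))
      (cpl (x2 L f x y (z + 1) h, x2 L g x y (z + 1) h)) (cpl (x3 L f x y z h, x3 L g x y z h)))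
    _ 0 (fun x y z h => d23 x _ _ _ _)
  have h := ((((h12.add_const (s13 L (fun x y z h => (1 / 2) *
      ‖cpl (x1 L f x y z h, x1 L g x y z h) + cpl (x3 L f (x + 1) y z h, x3 L g (x + 1) y z h) -
        cpl (x1 L f x y (z + 1) h, x1 L g x y (z + 1) h) -
        cpl (x3 L f x y z h, x3 L g x y z h)‖ ^ 2))).add h23).add_const
    (s14 L (fun x y z h => (1 / 2) *
      ‖cpl (x1 L f x y z (h + 1), x1 L g x y z (h + 1)) - cpl (x1 L f x y z h, x1 L g x y z h)‖ ^ 2))).add_const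
    (s24 L (fun x y z h => (1 / 2) *
      ‖cpl (x2 L f x y z (h + 1), x2 L g x y z (h + 1)) - cpl (x2 L f x y z h, x2 L g x y z h)‖ ^ 2))).add_const
    (s34 L (fun x y z h => (1 / 2) *
      ‖cpl (x3 L f x y z (h + 1), x3 L g x y z (h + 1)) - cpl (x3 L f x y z h, x3 L g x y z h)‖ ^ 2))
  refine h.congr_of_eventuallyEq (Filter.Eventually.of_forall fun θ => ?_)
  unfold qf
  simp only [ex1_c, ex2_c, ex3_c]
  rfl

/-- the first derivative of the form, real field -/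
theorem qf_e (L : ℕ) (f : IH L → ℝ) (θ : ℝ) :
    HasDerivAt (fun θ => qf L θ fun l => (f l : ℂ))
      (s12 L (fun x y z h => r12 x (x1 L f x y z h) (x2 L f (x + 1) y z h) (x1 L f x (y + 1) z h)
          (x2 L f x y z h) θ) +
      s23 L (fun x y z h => r23 x (x2 L f x y z h) (x3 L f x (y + 1) z h) (x2 L f x y (z + 1) h)
          (x3 L f x y z h) θ)) θ := by
  have h12 := hd12 L (fun θ x y z h => q12 θ x
      (x1 L f x y z h : ℝ) (x2 L f (x + 1) y z h : ℝ) (x1 L f x (y + 1) z h : ℝ) (x2 L f x y z h : ℝ))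
    _ θ (fun x y z h => e12 x _ _ _ _ θ)
  have h23 := hd23 L (fun θ x y z h => q23 θ x
      (x2 L f x y z h : ℝ) (x3 L f x (y + 1) z h : ℝ) (x2 L f x y (z + 1) h : ℝ) (x3 L f x y z h : ℝ))
    _ θ (fun x y z h => e23 x _ _ _ _ θ)
  have h := ((((h12.add_const (s13 L (fun x y z h => (1 / 2) *
      ‖((x1 L f x y z h : ℝ) : ℂ) + ((x3 L f (x + 1) y z h : ℝ) : ℂ) -
        ((x1 L f x y (z + 1) h : ℝ) : ℂ) - ((x3 L f x y z h : ℝ) : ℂ)‖ ^ 2))).add h23).add_const
    (s14 L (fun x y z h => (1 / 2) *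
      ‖((x1 L f x y z (h + 1) : ℝ) : ℂ) - ((x1 L f x y z h : ℝ) : ℂ)‖ ^ 2))).add_const
    (s24 L (fun x y z h => (1 / 2) *
      ‖((x2 L f x y z (h + 1) : ℝ) : ℂ) - ((x2 L f x y z h : ℝ) : ℂ)‖ ^ 2))).add_const
    (s34 L (fun x y z h => (1 / 2) *
      ‖((x3 L f x y z (h + 1) : ℝ) : ℂ) - ((x3 L f x y z h : ℝ) : ℂ)‖ ^ 2))
  refine h.congr_of_eventuallyEq (Filter.Eventually.of_forall fun θ => ?_)
  unfold qf
  simp only [ex1_r, ex2_r, ex3_r]
  rfl

/-- the second derivative of the form, real field -/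
def T2 (L : ℕ) (f : IH L → ℝ) : ℝ :=
  s12 L (fun x y z h => t12 x (x1 L f x y z h) (x2 L f (x + 1) y z h) (x1 L f x (y + 1) z h)
      (x2 L f x y z h)) +
  s23 L (fun x y z h => t23 x (x2 L f x y z h) (x3 L f x (y + 1) z h) (x2 L f x y (z + 1) h)
      (x3 L f x y z h))

theorem qf_f (L : ℕ) (f : IH L → ℝ) : deriv (deriv fun θ => qf L θ fun l => (f l : ℂ)) 0 = T2 L f := by
  have e : (deriv fun θ => qf L θ fun l => (f l : ℂ)) = fun θ =>
      s12 L (fun x y z h => r12 x (x1 L f x y z h) (x2 L f (x + 1) y z h) (x1 L f x (y + 1) z h)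
          (x2 L f x y z h) θ) +
      s23 L (fun x y z h => r23 x (x2 L f x y z h) (x3 L f x (y + 1) z h) (x2 L f x y (z + 1) h)
          (x3 L f x y z h) θ) := by
    funext θ
    exact (qf_e L f θ).deriv
  rw [e]
  have h12 := hd12 L (fun θ x y z h => r12 x (x1 L f x y z h) (x2 L f (x + 1) y z h)
      (x1 L f x (y + 1) z h) (x2 L f x y z h) θ) _ 0 (fun x y z h => f12 x _ _ _ _)
  have h23 := hd23 L (fun θ x y z h => r23 x (x2 L f x y z h) (x3 L f x (y + 1) z h)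
      (x2 L f x y (z + 1) h) (x3 L f x y z h) θ) _ 0 (fun x y z h => f23 x _ _ _ _)
  exact (h12.add h23).deriv

theorem T2_eq (hQF : S_QF) (hHR : S_HR) (hLM : S_LM) (hL : 2 ≤ L) (f : IH L → ℝ) :
    T2 L f = (1 / 2) * ∑ i, ∑ j, mC L i j * f i * f j := by
  obtain ⟨C', hX'⟩ := hHR
  obtain ⟨-, -, hBs, -, hB, hCC, -⟩ := hX' L hL
  obtain ⟨-, -, -, hsm, -⟩ := hLM L hL
  have hq : (fun θ => qf L θ fun l => (f l : ℂ)) =
      fun θ => (1 / 2 : ℝ) * hf (fun l => (f l : ℂ)) (hC L θ) (fun l => (f l : ℂ)) := by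
    funext θ
    exact hQF L hL θ _
  rw [← qf_f, hq, deriv2 _ _ hsm]
  congr 1
  rw [Complex.re_sum]
  refine Finset.sum_congr rfl fun i _ => ?_
  rw [Complex.re_sum]
  refine Finset.sum_congr rfl fun j _ => ?_
  rw [hCC, term2]

theorem first (hQF : S_QF) (hHR : S_HR) (hLM : S_LM) (hL : 2 ≤ L) (f g : IH L → ℝ) :
    s12 L (fun x y z h => (-(2 * x + 1) * w (x1 L f x y z h, x1 L g x y z h)
          (x1 L f x (y + 1) z h, x1 L g x (y + 1) z h) -
        (x + 1) * w (x1 L f x y z h, x1 L g x y z h) (x2 L f x y z h, x2 L g x y z h) -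
        (x + 1) * w (x1 L f x (y + 1) z h, x1 L g x (y + 1) z h) (x2 L f x y z h, x2 L g x y z h) +
        x * w (x1 L f x y z h, x1 L g x y z h) (x2 L f (x + 1) y z h, x2 L g (x + 1) y z h) -
        x * w (x2 L f (x + 1) y z h, x2 L g (x + 1) y z h)
          (x1 L f x (y + 1) z h, x1 L g x (y + 1) z h))) +
      s23 L (fun x y z h => (-x * (
        w (x3 L f x (y + 1) z h, x3 L g x (y + 1) z h) (x2 L f x y z h, x2 L g x y z h) -
        w (x3 L f x (y + 1) z h, x3 L g x (y + 1) z h) (x2 L f x y (z + 1) h, x2 L g x y (z + 1) h) -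
        2 * w (x3 L f x (y + 1) z h, x3 L g x (y + 1) z h) (x3 L f x y z h, x3 L g x y z h) +
        w (x3 L f x y z h, x3 L g x y z h) (x2 L f x y z h, x2 L g x y z h) -
        w (x3 L f x y z h, x3 L g x y z h) (x2 L f x y (z + 1) h, x2 L g x y (z + 1) h)))) =
      2 * ∑ i, ∑ j, mB L i j * f i * g j := by
  obtain ⟨C', hX'⟩ := hHR
  obtain ⟨-, -, hBs, -, hB, hCC, -⟩ := hX' L hL
  obtain ⟨-, -, -, hsm, -⟩ := hLM L hL
  have hq : (fun θ => qf L θ fun l => (f l : ℂ) + (g l : ℂ) * Complex.I) =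
      fun θ => (1 / 2 : ℝ) * hf (fun l => (f l : ℂ) + (g l : ℂ) * Complex.I) (hC L θ)
        (fun l => (f l : ℂ) + (g l : ℂ) * Complex.I) := by
    funext θ
    exact hQF L hL θ _
  have hBs' : ∀ x y, mB L y x = -mB L x y := by
    intro x y
    have := congrFun (congrFun hBs x) y
    exact this
  have E1 : deriv (fun θ => qf L θ fun l => (f l : ℂ) + (g l : ℂ) * Complex.I) 0 =
      -∑ x, ∑ y, mB L x y * f x * g y := by
    rw [hq, deriv1 _ _ hsm]
    show (1 / 2 : ℝ) * (∑ i, ∑ j, star ((f i : ℂ) + (g i : ℂ) * Complex.I) *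
      deriv (fun θ => hC L θ i j) 0 * ((f j : ℂ) + (g j : ℂ) * Complex.I)).re = _
    have e : (∑ i, ∑ j, star ((f i : ℂ) + (g i : ℂ) * Complex.I) * deriv (fun θ => hC L θ i j) 0 *
        ((f j : ℂ) + (g j : ℂ) * Complex.I)).re = ∑ i, ∑ j, (-(mB L i j * f i * g j) +
          mB L i j * g i * f j) := by
      rw [Complex.re_sum]
      refine Finset.sum_congr rfl fun i _ => ?_
      rw [Complex.re_sum]
      refine Finset.sum_congr rfl fun j _ => ?_
      rw [hB, term1]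
    have e' : ∑ i, ∑ j, mB L i j * g i * f j =
        -∑ x, ∑ y, mB L x y * f x * g y := by
      rw [Finset.sum_comm, ← Finset.sum_neg_distrib]
      refine Finset.sum_congr rfl fun i _ => ?_
      rw [← Finset.sum_neg_distrib]
      refine Finset.sum_congr rfl fun j _ => ?_
      rw [hBs' i j]
      ring
    rw [e]
    simp only [Finset.sum_add_distrib, Finset.sum_neg_distrib]
    rw [e']
    ring
  have E2 := (qf_d L f g).deriv
  rw [E1, s12_lin L (-(1 / 2)) _ _ (fun x y z h => rfl),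
    s23_lin L (-(1 / 2)) _ _ (fun x y z h => rfl)] at E2
  linarith

theorem x1_add (f g : IH L → ℝ) (x y z h : ℕ) :
    x1 L (fun i => f i + g i) x y z h = x1 L f x y z h + x1 L g x y z h := ex1_add L _ _ x y z h
theorem x2_add (f g : IH L → ℝ) (x y z h : ℕ) :
    x2 L (fun i => f i + g i) x y z h = x2 L f x y z h + x2 L g x y z h := ex2_add L _ _ x y z h
theorem x3_add (f g : IH L → ℝ) (x y z h : ℕ) :
    x3 L (fun i => f i + g i) x y z h = x3 L f x y z h + x3 L g x y z h := ex3_add L _ _ x y z h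

theorem second (hQF : S_QF) (hHR : S_HR) (hLM : S_LM) (hL : 2 ≤ L) (f g : IH L → ℝ)
    (F G : ℕ → ℕ → ℕ → ℕ → ℝ)
    (hF : ∀ x y z h, F x y z h =
      t12 x (x1 L f x y z h + x1 L g x y z h) (x2 L f (x + 1) y z h + x2 L g (x + 1) y z h)
        (x1 L f x (y + 1) z h + x1 L g x (y + 1) z h) (x2 L f x y z h + x2 L g x y z h) -
      t12 x (x1 L f x y z h) (x2 L f (x + 1) y z h) (x1 L f x (y + 1) z h) (x2 L f x y z h) -
      t12 x (x1 L g x y z h) (x2 L g (x + 1) y z h) (x1 L g x (y + 1) z h) (x2 L g x y z h))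
    (hG : ∀ x y z h, G x y z h =
      t23 x (x2 L f x y z h + x2 L g x y z h) (x3 L f x (y + 1) z h + x3 L g x (y + 1) z h)
        (x2 L f x y (z + 1) h + x2 L g x y (z + 1) h) (x3 L f x y z h + x3 L g x y z h) -
      t23 x (x2 L f x y z h) (x3 L f x (y + 1) z h) (x2 L f x y (z + 1) h) (x3 L f x y z h) -
      t23 x (x2 L g x y z h) (x3 L g x (y + 1) z h) (x2 L g x y (z + 1) h) (x3 L g x y z h)) :
    s12 L F + s23 L G = ∑ i, ∑ j, mC L i j * f i * g j := by
  have hsum := T2_eq hQF hHR hLM hL (fun i => f i + g i)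
  have hf1 := T2_eq hQF hHR hLM hL f
  have hg1 := T2_eq hQF hHR hLM hL g
  obtain ⟨C', hX'⟩ := hHR
  obtain ⟨-, -, -, hCs, -⟩ := hX' L hL
  have hCs' : ∀ i j, mC L j i = mC L i j := fun i j => congrFun (congrFun hCs i) j
  have e1 : ∑ i, ∑ j, mC L i j * (f i + g i) * (f j + g j) =
      ∑ i, ∑ j, mC L i j * f i * f j + ∑ i, ∑ j, mC L i j * g i * g j +
        2 * ∑ i, ∑ j, mC L i j * f i * g j := by
    have e2 : ∑ i, ∑ j, mC L i j * g i * f j = ∑ i, ∑ j, mC L i j * f i * g j := by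
      rw [Finset.sum_comm]
      refine Finset.sum_congr rfl fun i _ => Finset.sum_congr rfl fun j _ => ?_
      rw [hCs' i j]
      ring
    have e3 : ∑ i, ∑ j, mC L i j * (f i + g i) * (f j + g j) =
        ∑ i, ∑ j, (mC L i j * f i * f j + mC L i j * g i * g j + mC L i j * f i * g j +
          mC L i j * g i * f j) := by
      refine Finset.sum_congr rfl fun i _ => Finset.sum_congr rfl fun j _ => ?_
      ring
    rw [e3]
    simp only [Finset.sum_add_distrib]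
    rw [e2]
    ring
  rw [e1] at hsum
  have hs12 := s12_pol L F _ _ _ hF
  have hs23 := s23_pol L G _ _ _ hG
  have e4 : T2 L (fun i => f i + g i) =
      s12 L (fun x y z h => t12 x (x1 L f x y z h + x1 L g x y z h)
        (x2 L f (x + 1) y z h + x2 L g (x + 1) y z h)
        (x1 L f x (y + 1) z h + x1 L g x (y + 1) z h) (x2 L f x y z h + x2 L g x y z h)) +
      s23 L (fun x y z h => t23 x (x2 L f x y z h + x2 L g x y z h)
        (x3 L f x (y + 1) z h + x3 L g x (y + 1) z h)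
        (x2 L f x y (z + 1) h + x2 L g x y (z + 1) h) (x3 L f x y z h + x3 L g x y z h)) := by
    unfold T2
    simp only [x1_add, x2_add, x3_add]
  rw [e4] at hsum
  unfold T2 at hf1 hg1
  linarith

end

open Pool.Agent.H586.AF.GG in
/-- AG-SP, with `S_LM` for the smoothness of `hC` -/
theorem tsp (hLM : Pool.Agent.H586.AF.S_LM) : S_SP := by
  intro hQF hHR L hL f g
  refine ⟨first hQF hHR hLM hL f g, ?_⟩
  refine second hQF hHR hLM hL f g _ _ (fun x y z h => ?_) (fun x y z h => ?_)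
  · unfold t12
    simp only [x1, x2, x3]
    ring
  · unfold t23
    simp only [x1, x2, x3, Prod.fst_add, Prod.snd_add, Prod.fst_sub, Prod.snd_sub]
    ring

end

end Pool.Agent.H375.AG
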